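import Pool.Agent.H93Tate.BaseChange

/-! Descent along an extension of coefficient fields, for arbitrary generating sets and for
classes of degree two on which a set of endomorphisms acts by scalars. -/

set_option linter.unusedSectionVars false

namespace Pool.Agent.H46

open Pool.Agent.H93Tate TensorProduct ExteriorAlgebra

variable {E : Type*} [Field E] [CharZero E] {V : Type*} [AddCommGroup V] [Module E V]
variable (K : Type*) [Field K] [Algebra E K]

/-- the algebra generated over `K` by the image of `G` lies in the `K`-span of the image of the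
algebra generated over `E` by `G` -/
lemma adjoin_image_le (G : Set (ExteriorAlgebra E V)) :
    (Algebra.adjoin K (theta K '' G) : Set (ExteriorAlgebra K (K ⊗[E] V))) ⊆
    Submodule.span K (theta K '' (Algebra.adjoin E G : Set (ExteriorAlgebra E V))) := by
  set B : Subalgebra E (ExteriorAlgebra E V) := Algebra.adjoin E G with hB
  have h1 : Submodule.span K (theta K '' (B : Set (ExteriorAlgebra E V))) =
      Subalgebra.toSubmodule (Algebra.adjoin K (theta K '' (B : Set (ExteriorAlgebra E V)))) := by
    rw [Algebra.adjoin_eq_span]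
    congr 1
    have h2 : theta K '' (B : Set (ExteriorAlgebra E V)) =
        ((B.toSubmonoid.map (theta (V := V) K).toRingHom.toMonoidHom :
          Submonoid (ExteriorAlgebra K (K ⊗[E] V))) : Set (ExteriorAlgebra K (K ⊗[E] V))) := rfl
    rw [h2, Submonoid.closure_eq]
  rw [h1]
  exact Algebra.adjoin_mono (Set.image_mono Algebra.subset_adjoin)

/-- descent of membership in a generated subalgebra -/
theorem descend_adjoin (G : Set (ExteriorAlgebra E V)) (t : ExteriorAlgebra E V)
    (h : theta K t ∈ Algebra.adjoin K (theta K '' G)) : t ∈ Algebra.adjoin E G := by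
  set B : Subalgebra E (ExteriorAlgebra E V) := Algebra.adjoin E G with hB
  let b := Module.Basis.ofVectorSpace E K
  obtain ⟨s, w, hw, hsum⟩ := exists_basis_repr K (Subalgebra.toSubmodule B) b _
    (adjoin_image_le K G h)
  by_contra hne
  obtain ⟨f, hf, hker⟩ := Submodule.exists_le_ker_of_notMem (p := Subalgebra.toSubmodule B) hne
  have h1 := congrArg (fun z => TensorProduct.rid E K (f.lTensor K (eta K z))) hsum
  simp only [map_sum, map_smul, eta_theta] at h1
  simp only [LinearMap.lTensor_tmul, TensorProduct.smul_tmul', smul_eq_mul, mul_one,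
    TensorProduct.rid_tmul] at h1
  rw [Finset.sum_eq_zero] at h1
  · have h2 : algebraMap E K (f t) = 0 := by
      rw [Algebra.algebraMap_eq_smul_one]; exact h1
    exact hf ((map_eq_zero _).1 h2)
  · intro i _
    rw [show f (w i) = 0 from hker (hw i), zero_smul]

/-- a class in the `K`-span of the image of an `E`-subspace on which the endomorphisms `f` of `Δ`
act by the scalars `χ f` is in the `K`-span of the image of such classes of the subspace -/
theorem span_eigen (W : Submodule E (ExteriorAlgebra E V)) (Δ : Set (V →ₗ[E] V))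
    (χ : (V →ₗ[E] V) → E) (c : ExteriorAlgebra K (K ⊗[E] V))
    (hc : c ∈ Submodule.span K (theta K '' (W : Set (ExteriorAlgebra E V))))
    (h : ∀ f ∈ Δ, ExteriorAlgebra.map (f.baseChange K) c = algebraMap E K (χ f) • c) :
    c ∈ Submodule.span K (theta K '' {w : ExteriorAlgebra E V | w ∈ W ∧
      ∀ f ∈ Δ, ExteriorAlgebra.map f w = χ f • w}) := by
  let b := Module.Basis.ofVectorSpace E K
  obtain ⟨s, t, ht, rfl⟩ := exists_basis_repr K W b c hc
  have h3 : ∀ f ∈ Δ, ∀ i ∈ s, ExteriorAlgebra.map f (t i) - χ f • t i = 0 := by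
    intro f hf
    apply indep_theta K b b.linearIndependent s
    have h2 : ∀ i, b i • theta K (ExteriorAlgebra.map f (t i) - χ f • t i) =
        ExteriorAlgebra.map (f.baseChange K) (b i • theta K (t i)) -
          algebraMap E K (χ f) • (b i • theta K (t i)) := by
      intro i
      rw [map_sub, theta_map, map_smul, smul_sub, map_smul, algebraMap_smul, smul_comm]
    rw [Finset.sum_congr rfl (fun i _ => h2 i), Finset.sum_sub_distrib, ← map_sum,
      ← Finset.smul_sum, h f hf, sub_self]
  refine Submodule.sum_mem _ fun i hi => Submodule.smul_mem _ _ (Submodule.subset_span ?_)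
  exact ⟨t i, ⟨ht i, fun f hf => sub_eq_zero.1 (h3 f hf i hi)⟩, rfl⟩

/-- classes of degree two over `K` on which the endomorphisms `f` of `Δ` act by the scalars `χ f`
are in the `K`-span of the image of such classes over `E` -/
theorem deg2_eigen (Δ : Set (V →ₗ[E] V)) (χ : (V →ₗ[E] V) → E)
    (c : ExteriorAlgebra K (K ⊗[E] V)) (hc : c ∈ (⋀[K]^2 (K ⊗[E] V)))
    (h : ∀ f ∈ Δ, ExteriorAlgebra.map (f.baseChange K) c = algebraMap E K (χ f) • c) :
    c ∈ Submodule.span K (theta K '' {w : ExteriorAlgebra E V | w ∈ (⋀[E]^2 V) ∧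
      ∀ f ∈ Δ, ExteriorAlgebra.map f w = χ f • w}) :=
  span_eigen K (⋀[E]^2 V) Δ χ c (ext2_le K hc) h

/-- descent of generation by classes of degree two on which a set of endomorphisms acts by
scalars -/
theorem descend_eigen (Δ : Set (V →ₗ[E] V)) (χ : (V →ₗ[E] V) → E) (t : ExteriorAlgebra E V)
    (h : theta K t ∈ Algebra.adjoin K {c : ExteriorAlgebra K (K ⊗[E] V) |
      c ∈ (⋀[K]^2 (K ⊗[E] V)) ∧
      ∀ f ∈ Δ, ExteriorAlgebra.map (f.baseChange K) c = algebraMap E K (χ f) • c}) :
    t ∈ Algebra.adjoin E {w : ExteriorAlgebra E V | w ∈ (⋀[E]^2 V) ∧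
      ∀ f ∈ Δ, ExteriorAlgebra.map f w = χ f • w} := by
  apply descend_adjoin K
  refine Algebra.adjoin_le (S := Algebra.adjoin K (theta K '' {w : ExteriorAlgebra E V |
    w ∈ (⋀[E]^2 V) ∧ ∀ f ∈ Δ, ExteriorAlgebra.map f w = χ f • w})) ?_ h
  rintro c ⟨hc, hc2⟩
  have h1 := deg2_eigen K Δ χ c hc hc2
  have h2 : Submodule.span K (theta K '' {w : ExteriorAlgebra E V |
      w ∈ (⋀[E]^2 V) ∧ ∀ f ∈ Δ, ExteriorAlgebra.map f w = χ f • w}) ≤
      Subalgebra.toSubmodule (Algebra.adjoin K (theta K '' {w : ExteriorAlgebra E V |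
      w ∈ (⋀[E]^2 V) ∧ ∀ f ∈ Δ, ExteriorAlgebra.map f w = χ f • w})) :=
    Submodule.span_le.2 fun w hw => Algebra.subset_adjoin hw
  exact h2 h1

end Pool.Agent.H46
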